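import Mathlib
import Pool.Agent.Helper80_DiscGauss.Defs
import Pool.Agent.Helper80_DiscGauss.Main

/-!
# Complex discrete Gaussians with fixed parameter are not identified by moments up to order three

For every `g ≥ 4` there is a parameter `B` in the Siegel half space `ℍ_g` and two complex discrete
Gaussians with parameter `B`, having the same moments up to order three but different weight
functions.  (For `g = 4` the proof uses `B = ½(1 + i(J - 1))`, `J` the all-ones matrix,
`u = (i/2) e₁`, `u' = (i/2) e₂`.)  The definitions are in `Pool.Agent.Helper80_DiscGauss.Defs`.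
-/

open scoped BigOperators
open Pool.Agent.Helper80DiscGauss

namespace Pool.Agent.Results.MP_405529_ag.ThirdMomentsFail

/-- **Q1 fails in every dimension `g ≥ 4`.** For every `g ≥ 4` there are a parameter `B ∈ ℍ_g` and
two complex discrete Gaussians with parameter `B` which have the same moments up to order three
but different weight functions. -/
theorem result : ∀ g : ℕ, 4 ≤ g →
    ∃ B : Matrix (Fin g) (Fin g) ℂ, InSiegelSpace B ∧
      ∃ u u' : Fin g → ℂ, theta u B ≠ 0 ∧ theta u' B ≠ 0 ∧
        (∀ α : Fin g → ℕ, ∑ i, α i ≤ 3 → moment u B α = moment u' B α) ∧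
        ∃ n : Fin g → ℤ, weight u B n ≠ weight u' B n :=
  Pool.Agent.Helper80DiscGauss.main

end Pool.Agent.Results.MP_405529_ag.ThirdMomentsFail
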